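import Pool.Agent.Q283.SP.Stm
import Pool.Agent.Q38.LS.LT

/-! # Project SP (helper283), job LT: cocycles trivial on inertia have finite order -/

set_option autoImplicit false

namespace Pool.Agent.Q190.SP

open Pool.Agent.Q283.LS (Dec Inr)
open Pool.Agent.Q283.SP
open Pool.Agent.Q38.LS (inr_comm)

section

variable (p : ℕ) [Fact p.Prime] {Ω : Type} [Field Ω] [CharZero Ω]

theorem chi_mul (σ τ : Ω ≃ₐ[ℚ] Ω) : chi p (σ * τ) = chi p σ * chi p τ := by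
  unfold chi
  have h : ((σ * τ : Ω ≃ₐ[ℚ] Ω) : Ω ≃+* Ω) = (σ : Ω ≃+* Ω) * (τ : Ω ≃+* Ω) := rfl
  rw [h, map_mul, Units.val_mul]

theorem chi_inv (σ : Ω ≃ₐ[ℚ] Ω) : chi p σ * chi p σ⁻¹ = 1 := by
  rw [← chi_mul p, mul_inv_cancel]
  unfold chi
  have h : ((1 : Ω ≃ₐ[ℚ] Ω) : Ω ≃+* Ω) = 1 := rfl
  rw [h, map_one, Units.val_one]

end

theorem lt (hNT : S_NT) : S_LT := by
  intro p _ Ω _ _ _ _ K _ l _ j r hr f hf hin
  obtain ⟨τ0, hτK, hτD, hτ1⟩ := hNT p Ω K l j r hr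
  refine ⟨chi p τ0 ^ r - 1, f ⟨τ0, hτK⟩, sub_ne_zero.mpr hτ1, fun σ hσ => ?_⟩
  set τ : K.fixingSubgroup := ⟨τ0, hτK⟩ with hτ
  have hκ : f (σ * τ * (τ * σ)⁻¹) = 0 := hin _ (inr_comm hσ hτD)
  have hρ : chi p (σ * τ * (τ * σ)⁻¹ : K.fixingSubgroup).1 ^ r = 1 := by
    have h1 : (σ * τ * (τ * σ)⁻¹ : K.fixingSubgroup).1 = (σ.1 * τ.1) * (τ.1 * σ.1)⁻¹ := rfl
    have h2 := chi_inv p (τ.1 * σ.1)
    rw [h1, chi_mul p, chi_mul p, mul_comm (chi p σ.1), ← chi_mul p, h2, one_pow]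
  have h1 : f (σ * τ) = f (τ * σ) := by
    have h2 := hf.coc (σ * τ * (τ * σ)⁻¹) (τ * σ)
    rw [inv_mul_cancel_right, hκ, zero_add] at h2
    rw [h2, hρ, one_mul]
  have h2 := hf.coc σ τ
  have h3 := hf.coc τ σ
  rw [h1, h3] at h2
  have h4 : chi p τ0 = chi p τ.1 := rfl
  rw [h4]
  linear_combination h2

end Pool.Agent.Q190.SP
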